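import Mathlib

/-! The product action of the wreath product on `Fin 3 → V` is primitive. -/

namespace Pool.Agent.V11199.SS

open scoped Pointwise

/-- the element of the wreath product given by `π` and `s` -/
def wrMk {V : Type} (π : Equiv.Perm (Fin 3)) (s : Fin 3 → Equiv.Perm V) :
    Equiv.Perm (Fin 3 → V) where
  toFun w i := s i (w (π i))
  invFun w j := (s (π.symm j)).symm (w (π.symm j))
  left_inv w := by
    funext j
    simp
  right_inv w := by
    funext j
    simp

theorem wrMk_apply {V : Type} (π : Equiv.Perm (Fin 3)) (s : Fin 3 → Equiv.Perm V)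
    (w : Fin 3 → V) (i : Fin 3) : wrMk π s w i = s i (w (π i)) := rfl

/-- the wreath product `Sym(V) wr Sym(3)` in product action on `V^3` -/
def Wr (V : Type) : Subgroup (Equiv.Perm (Fin 3 → V)) where
  carrier := {g | ∃ (π : Equiv.Perm (Fin 3)) (s : Fin 3 → Equiv.Perm V),
    ∀ w i, g w i = s i (w (π i))}
  mul_mem' := by
    rintro g h ⟨π, s, hg⟩ ⟨ρ, t, hh⟩
    refine ⟨ρ * π, fun i => s i * t (π i), fun w i => ?_⟩
    rw [Equiv.Perm.mul_apply, hg, hh]
    rfl
  one_mem' := ⟨1, fun _ => 1, fun _ _ => rfl⟩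
  inv_mem' := by
    rintro g ⟨π, s, hg⟩
    refine ⟨π.symm, fun j => (s (π.symm j)).symm, fun w j => ?_⟩
    have h1 : w = g (g⁻¹ w) := (Equiv.apply_symm_apply g w).symm
    generalize g⁻¹ w = η at h1
    rw [h1, hg]
    simp

theorem mem_Wr {V : Type} {g : Equiv.Perm (Fin 3 → V)} :
    g ∈ Wr V ↔ ∃ (π : Equiv.Perm (Fin 3)) (s : Fin 3 → Equiv.Perm V),
      ∀ w i, g w i = s i (w (π i)) := Iff.rfl

theorem wrMk_mem {V : Type} (π : Equiv.Perm (Fin 3)) (s : Fin 3 → Equiv.Perm V) :
    wrMk π s ∈ Wr V := ⟨π, s, fun _ _ => rfl⟩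

theorem Wr_agree {V : Type} {g : Equiv.Perm (Fin 3 → V)} (hg : g ∈ Wr V) (x y : Fin 3 → V)
    (h : ∃ i, x i = y i) : ∃ i, g x i = g y i := by
  obtain ⟨π, s, hs⟩ := mem_Wr.mp hg
  obtain ⟨i, hi⟩ := h
  refine ⟨π.symm i, ?_⟩
  rw [hs, hs, Equiv.apply_symm_apply, hi]

section blocks

variable {V : Type} [DecidableEq V]

theorem line_of_pair {B : Set (Fin 3 → V)}
    (hB : ∀ g ∈ Wr V, ∀ p ∈ B, g p ∈ B → ∀ q ∈ B, g q ∈ B)
    {p : Fin 3 → V} (hp : p ∈ B) {i : Fin 3} {z : V} (hz : z ≠ p i)
    (hq : Function.update p i z ∈ B) (w : V) : Function.update p i w ∈ B := by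
  by_cases hw : w = p i
  · rw [hw, Function.update_eq_self]
    exact hp
  · have h := hB (wrMk 1 (fun k => if k = i then Equiv.swap z w else 1)) (wrMk_mem _ _) p hp (by
      have : wrMk 1 (fun k => if k = i then Equiv.swap z w else 1) p = p := by
        funext k
        rw [wrMk_apply, Equiv.Perm.one_apply]
        by_cases hk : k = i
        · subst hk
          rw [if_pos rfl, Equiv.swap_apply_of_ne_of_ne hz.symm (Ne.symm hw)]
        · rw [if_neg hk, Equiv.Perm.one_apply]
      rw [this]
      exact hp) _ hq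
    have h2 : wrMk 1 (fun k => if k = i then Equiv.swap z w else 1) (Function.update p i z) =
        Function.update p i w := by
      funext k
      rw [wrMk_apply, Equiv.Perm.one_apply]
      by_cases hk : k = i
      · subst hk
        rw [if_pos rfl, Function.update_self, Function.update_self, Equiv.swap_apply_left]
      · rw [if_neg hk, Equiv.Perm.one_apply, Function.update_of_ne hk, Function.update_of_ne hk]
    rw [h2] at h
    exact h

theorem all_lines_of_pair {B : Set (Fin 3 → V)}
    (hB : ∀ g ∈ Wr V, ∀ p ∈ B, g p ∈ B → ∀ q ∈ B, g q ∈ B)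
    {p : Fin 3 → V} (hp : p ∈ B) {i : Fin 3} {z : V} (hz : z ≠ p i)
    (hq : Function.update p i z ∈ B) (j : Fin 3) (w : V) : Function.update p j w ∈ B := by
  let π : Equiv.Perm (Fin 3) := Equiv.swap i j
  let s : Fin 3 → Equiv.Perm V := fun k => Equiv.swap (p (π k)) (p k)
  have hgp : wrMk π s p = p := by
    funext k
    rw [wrMk_apply]
    exact Equiv.swap_apply_left _ _
  have h := hB (wrMk π s) (wrMk_mem _ _) p hp (by rw [hgp]; exact hp) _ hq
  have h2 : wrMk π s (Function.update p i z) = Function.update p j (s j z) := by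
    funext k
    rw [wrMk_apply]
    by_cases hk : k = j
    · subst hk
      have : π k = i := Equiv.swap_apply_right _ _
      rw [this, Function.update_self, Function.update_self]
    · have : π k ≠ i := by
        intro hki
        apply hk
        have h3 : π (π k) = π i := by rw [hki]
        have h4 : π (π k) = k := by
          change Equiv.swap i j (Equiv.swap i j k) = k
          rw [← Equiv.Perm.mul_apply, Equiv.swap_mul_self, Equiv.Perm.one_apply]
        have h5 : π i = j := Equiv.swap_apply_left _ _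
        rw [h4, h5] at h3
        exact h3
      rw [Function.update_of_ne this, Function.update_of_ne hk]
      exact Equiv.swap_apply_left _ _
  rw [h2] at h
  refine line_of_pair hB hp (z := s j z) ?_ h w
  intro hcon
  have h6 : s j (p i) = p j := by
    have : π j = i := Equiv.swap_apply_right _ _
    change Equiv.swap (p (π j)) (p j) (p i) = p j
    rw [this]
    exact Equiv.swap_apply_left _ _
  exact hz ((s j).injective (hcon.trans h6.symm))

theorem block_univ {B : Set (Fin 3 → V)}
    (hB : ∀ g ∈ Wr V, ∀ p ∈ B, g p ∈ B → ∀ q ∈ B, g q ∈ B)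
    {p : Fin 3 → V} (hp : p ∈ B) {i : Fin 3} {z : V} (hz : z ≠ p i)
    (hq : Function.update p i z ∈ B) : B = Set.univ := by
  have key : ∀ q : Fin 3 → V, (q ∈ B ∧ ∀ j w, Function.update q j w ∈ B) → ∀ j w,
      (Function.update q j w ∈ B ∧ ∀ k w', Function.update (Function.update q j w) k w' ∈ B) := by
    rintro q ⟨hq1, hq2⟩ j w
    refine ⟨hq2 j w, fun k w' => ?_⟩
    by_cases hw : w = q j
    · rw [hw, Function.update_eq_self]
      exact hq2 k w'
    · refine all_lines_of_pair hB (hq2 j w) (i := j) (z := q j) ?_ ?_ k w'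
      · rw [Function.update_self]
        exact Ne.symm hw
      · rw [Function.update_idem, Function.update_eq_self]
        exact hq1
  have h0 : p ∈ B ∧ ∀ j w, Function.update p j w ∈ B := ⟨hp, all_lines_of_pair hB hp hz hq⟩
  rw [Set.eq_univ_iff_forall]
  intro t
  have h3 := key _ (key _ (key p h0 0 (t 0)) 1 (t 1)) 2 (t 2)
  have h4 : Function.update (Function.update (Function.update p 0 (t 0)) 1 (t 1)) 2 (t 2) = t := by
    funext k
    fin_cases k <;> simp [Function.update]
  rw [h4] at h3
  exact h3.1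

end blocks

theorem Wr_primitive (V : Type) [Fintype V] [DecidableEq V] (hV : 3 ≤ Fintype.card V) :
    MulAction.IsPreprimitive (Wr V) (Fin 3 → V) := by
  have htr : MulAction.IsPretransitive (Wr V) (Fin 3 → V) := by
    refine ⟨fun x y => ⟨⟨wrMk 1 (fun i => Equiv.swap (x i) (y i)), wrMk_mem _ _⟩, ?_⟩⟩
    change wrMk 1 (fun i => Equiv.swap (x i) (y i)) x = y
    funext k
    rw [wrMk_apply, Equiv.Perm.one_apply]
    exact Equiv.swap_apply_left _ _
  refine { htr with isTrivialBlock_of_isBlock := ?_ }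
  intro B hBl
  rw [MulAction.IsTrivialBlock]
  by_cases hs : B.Subsingleton
  · exact Or.inl hs
  · right
    have hB : ∀ g ∈ Wr V, ∀ p ∈ B, g p ∈ B → ∀ q ∈ B, g q ∈ B := by
      intro g hg p hp hgp q hq
      have h1 := (MulAction.isBlock_iff_smul_eq_of_nonempty.mp hBl) (g := ⟨g, hg⟩)
        ⟨g p, Set.mem_smul_set.mpr ⟨p, hp, rfl⟩, hgp⟩
      rw [← h1]
      exact Set.mem_smul_set.mpr ⟨q, hq, rfl⟩
    rw [Set.not_subsingleton_iff] at hs
    obtain ⟨x, hx, y, hy, hxy⟩ := hs
    obtain ⟨i, hi⟩ := Function.ne_iff.mp hxy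
    obtain ⟨w, hw⟩ : ∃ w : V, w ∉ ({x i, y i} : Finset V) := by
      by_contra hcon
      push Not at hcon
      have h1 : (Finset.univ : Finset V) ⊆ {x i, y i} := fun w _ => hcon w
      have h2 := Finset.card_le_card h1
      have h3 : ({x i, y i} : Finset V).card ≤ 2 := Finset.card_le_two
      rw [Finset.card_univ] at h2
      omega
    rw [Finset.mem_insert, Finset.mem_singleton, not_or] at hw
    have hgx : wrMk 1 (fun k => if k = i then Equiv.swap (y i) w else 1) x = x := by
      funext k
      rw [wrMk_apply, Equiv.Perm.one_apply]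
      by_cases hk : k = i
      · subst hk
        rw [if_pos rfl, Equiv.swap_apply_of_ne_of_ne hi (Ne.symm hw.1)]
      · rw [if_neg hk, Equiv.Perm.one_apply]
    have h := hB _ (wrMk_mem 1 (fun k => if k = i then Equiv.swap (y i) w else 1)) x hx
      (by rw [hgx]; exact hx) y hy
    have hgy : wrMk 1 (fun k => if k = i then Equiv.swap (y i) w else 1) y =
        Function.update y i w := by
      funext k
      rw [wrMk_apply, Equiv.Perm.one_apply]
      by_cases hk : k = i
      · subst hk
        rw [if_pos rfl, Function.update_self, Equiv.swap_apply_left]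
      · rw [if_neg hk, Equiv.Perm.one_apply, Function.update_of_ne hk]
    rw [hgy] at h
    exact block_univ hB hy hw.2 h

theorem Wr_not_alt (V : Type) [Fintype V] [DecidableEq V] (hV : 2 ≤ Fintype.card V) :
    ¬ alternatingGroup (Fin 3 → V) ≤ Wr V := by
  intro hle
  obtain ⟨v0, v1, hv⟩ := Fintype.exists_pair_of_one_lt_card (show 1 < Fintype.card V by omega)
  let x : Fin 3 → V := fun _ => v0
  let y : Fin 3 → V := ![v1, v0, v0]
  let z : Fin 3 → V := fun _ => v1
  let w : Fin 3 → V := ![v0, v1, v0]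
  have hyw : y ≠ w := fun h => hv (by simpa [y, w] using (congrFun h 0).symm)
  have hyz : y ≠ z := fun h => hv (by simpa [y, z] using (congrFun h 1))
  have hwz : w ≠ z := fun h => hv (by simpa [w, z] using (congrFun h 0))
  have hxy : x ≠ y := fun h => hv (by simpa [x, y] using (congrFun h 0))
  have hxw : x ≠ w := fun h => hv (by simpa [x, w] using (congrFun h 1))
  have hxz : x ≠ z := fun h => hv (by simpa [x, z] using (congrFun h 1))
  have h3 := (Equiv.Perm.isThreeCycle_swap_mul_swap_same hyw hyz hwz).mem_alternatingGroup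
  have h4 := hle h3
  obtain ⟨i, hi⟩ := Wr_agree h4 x y ⟨1, by simp [x, y]⟩
  have h5 : (Equiv.swap y w * Equiv.swap y z) x = x := by
    rw [Equiv.Perm.mul_apply, Equiv.swap_apply_of_ne_of_ne hxy hxz,
      Equiv.swap_apply_of_ne_of_ne hxy hxw]
  have h6 : (Equiv.swap y w * Equiv.swap y z) y = z := by
    rw [Equiv.Perm.mul_apply, Equiv.swap_apply_left,
      Equiv.swap_apply_of_ne_of_ne hyz.symm hwz.symm]
  rw [h5, h6] at hi
  exact hv hi

end Pool.Agent.V11199.SS
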