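import Mathlib

/-! A family of involutions extending a given partial involution. -/

namespace Pool.Agent.V11199.SS

open Finset

/-- the partial involution swapping `i` and `u i` -/
noncomputable def tau {V : Type} [DecidableEq V] (I : Finset V) (u : V → V) (x : V) : V :=
  by
    classical
    exact if x ∈ I then u x else if h : ∃ i ∈ I, u i = x then h.choose else x

theorem tau_mem {V : Type} [DecidableEq V] {I : Finset V} {u : V → V} {x : V} (hx : x ∈ I) :
    tau I u x = u x := by
  unfold tau
  rw [if_pos hx]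

theorem tau_u {V : Type} [DecidableEq V] {I : Finset V} {u : V → V}
    (hu : Set.InjOn u I) (hd : ∀ i ∈ I, u i ∉ I) {i : V} (hi : i ∈ I) :
    tau I u (u i) = i := by
  unfold tau
  rw [if_neg (hd i hi)]
  have h : ∃ j ∈ I, u j = u i := ⟨i, hi, rfl⟩
  rw [dif_pos h]
  exact hu h.choose_spec.1 hi h.choose_spec.2

theorem fam {V : Type} [Fintype V] [DecidableEq V] (I : Finset V) (u : V → V)
    (hu : Set.InjOn u I) (hd : ∀ i ∈ I, u i ∉ I) (hcard : 2 * #I < Fintype.card V) :
    ∃ (n : ℕ) (s : Fin n → Equiv.Perm V), Fintype.card V - 2 * #I = n ∧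
      (∀ t x, s t (s t x) = x) ∧ (∀ t, ∀ i ∈ I, s t i = u i) ∧
      (∀ x y, (#{t | s t x = y} : ℝ) ≤
        n * ((if x ∈ I ∧ y = u x then 1 else 0) + (if y ∈ I ∧ x = u y then 1 else 0)) + 1) := by
  classical
  obtain ⟨D, hD⟩ : ∃ D : Finset V, D = I ∪ I.image u := ⟨_, rfl⟩
  have hDcard : #D = 2 * #I := by
    rw [hD, Finset.card_union_of_disjoint, Finset.card_image_of_injOn hu]
    · ring
    · rw [Finset.disjoint_left]
      intro a ha ha'
      obtain ⟨i, hi, rfl⟩ := Finset.mem_image.mp ha'
      exact hd i hi ha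
  obtain ⟨Y, hY⟩ : ∃ Y : Finset V, Y = Dᶜ := ⟨_, rfl⟩
  have hYcard : #Y = Fintype.card V - 2 * #I := by
    rw [hY, Finset.card_compl, hDcard]
  have hYpos : 0 < #Y := by omega
  have : NeZero (#Y) := ⟨by omega⟩
  let e : {x // x ∈ Y} ≃ Fin (#Y) := Y.equivFin
  let s : Fin (#Y) → V → V := fun t x => if h : x ∈ Y then (e.symm (t - e ⟨x, h⟩)).1 else tau I u x
  have hsY : ∀ t x (h : x ∈ Y), s t x = (e.symm (t - e ⟨x, h⟩)).1 := by
    intro t x h
    simp only [s]
    rw [dif_pos h]
  have hsD : ∀ t x, x ∉ Y → s t x = tau I u x := by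
    intro t x h
    simp only [s]
    rw [dif_neg h]
  have hnY : ∀ x, x ∉ Y ↔ (x ∈ I ∨ ∃ i ∈ I, u i = x) := by
    intro x
    rw [hY, Finset.mem_compl, not_not, hD, Finset.mem_union, Finset.mem_image]
  have hinv : ∀ t x, s t (s t x) = x := by
    intro t x
    by_cases h : x ∈ Y
    · rw [hsY t x h, hsY t _ (e.symm (t - e ⟨x, h⟩)).2]
      have : (⟨(e.symm (t - e ⟨x, h⟩)).1, (e.symm (t - e ⟨x, h⟩)).2⟩ : {x // x ∈ Y}) =
        e.symm (t - e ⟨x, h⟩) := rfl
      rw [this, Equiv.apply_symm_apply, sub_sub_cancel, Equiv.symm_apply_apply]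
    · rw [hsD t x h]
      rcases (hnY x).mp h with hx | ⟨i, hi, rfl⟩
      · have h2 : u x ∉ Y := (hnY _).mpr (Or.inr ⟨x, hx, rfl⟩)
        rw [tau_mem hx, hsD t _ h2, tau_u hu hd hx]
      · rw [tau_u hu hd hi]
        have h2 : i ∉ Y := (hnY _).mpr (Or.inl hi)
        rw [hsD t _ h2, tau_mem hi]
  refine ⟨#Y, fun t => Function.Involutive.toPerm (s t) (hinv t), hYcard.symm, ?_, ?_, ?_⟩
  · intro t x
    exact hinv t x
  · intro t i hi
    change s t i = u i
    rw [hsD t i ((hnY i).mpr (Or.inl hi)), tau_mem hi]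
  · intro x y
    change (#{t | s t x = y} : ℝ) ≤ _
    by_cases h : x ∈ Y
    · have h1 : #{t | s t x = y} ≤ 1 := by
        rw [Finset.card_le_one]
        intro t ht t' ht'
        rw [Finset.mem_filter] at ht ht'
        have := ht.2.trans ht'.2.symm
        rw [hsY t x h, hsY t' x h] at this
        have h2 := e.symm.injective (Subtype.ext this)
        exact sub_left_injective h2
      have h2 : (#{t | s t x = y} : ℝ) ≤ 1 := by exact_mod_cast h1
      have h3 : (0 : ℝ) ≤ (#Y : ℝ) * ((if x ∈ I ∧ y = u x then 1 else 0) +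
        (if y ∈ I ∧ x = u y then 1 else 0)) := by positivity
      linarith
    · have hc : #{t | s t x = y} ≤ #Y := by
        refine (Finset.card_filter_le _ _).trans ?_
        rw [Finset.card_univ, Fintype.card_fin]
      have hc' : (#{t | s t x = y} : ℝ) ≤ #Y := by exact_mod_cast hc
      by_cases hy : y = tau I u x
      · rcases (hnY x).mp h with hx | ⟨i, hi, rfl⟩
        · rw [tau_mem hx] at hy
          rw [if_pos ⟨hx, hy⟩]
          have h4 : (0 : ℝ) ≤ (if y ∈ I ∧ x = u y then (1 : ℝ) else 0) := by positivity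
          have h5 : (0 : ℝ) ≤ (#Y : ℝ) := Nat.cast_nonneg _
          nlinarith
        · rw [tau_u hu hd hi] at hy
          subst hy
          rw [if_pos (show y ∈ I ∧ u y = u y from ⟨hi, rfl⟩)]
          have h4 : (0 : ℝ) ≤ (if u y ∈ I ∧ y = u (u y) then (1 : ℝ) else 0) := by positivity
          have h5 : (0 : ℝ) ≤ (#Y : ℝ) := Nat.cast_nonneg _
          nlinarith
      · have h0 : #{t | s t x = y} = 0 := by
          rw [Finset.card_eq_zero, Finset.filter_eq_empty_iff]
          intro t _ ht
          rw [hsD t x h] at ht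
          exact hy ht.symm
        rw [h0]
        have h3 : (0 : ℝ) ≤ (#Y : ℝ) * ((if x ∈ I ∧ y = u x then 1 else 0) +
          (if y ∈ I ∧ x = u y then 1 else 0)) := by positivity
        simp only [Nat.cast_zero]
        linarith

/-- Hall step: a symmetric relation with few pairs avoiding `Y0` has a permutation avoiding it. -/
theorem hall_step {V : Type} [Fintype V] [DecidableEq V] (F : Finset (V × V))
    (hsym : ∀ x y, (x, y) ∈ F → (y, x) ∈ F) (Y0 : Finset V)
    (hY0 : ∀ x y, (x, y) ∈ F → y ∉ Y0)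
    (hcard : #F < (#Y0 + 1) * (Fintype.card V - #Y0)) :
    ∃ s : Equiv.Perm V, ∀ x, (x, s x) ∉ F := by
  classical
  have hY0' : ∀ x y, (x, y) ∈ F → x ∉ Y0 := fun x y h => hY0 y x (hsym x y h)
  obtain ⟨f, hf1, hf2⟩ := (Finset.all_card_le_biUnion_card_iff_exists_injective
    (fun x : V => (univ : Finset V).filter (fun y => (x, y) ∉ F))).mp (by
      intro S
      by_contra hcon
      push Not at hcon
      set T : Finset V := (S.biUnion (fun x => univ.filter (fun y => (x, y) ∉ F)))ᶜ with hT
      have hTc : #T = Fintype.card V - #(S.biUnion (fun x => univ.filter (fun y => (x, y) ∉ F))) := by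
        rw [hT, Finset.card_compl]
      have hle : #(S.biUnion (fun x => univ.filter (fun y => (x, y) ∉ F))) ≤ Fintype.card V :=
        Finset.card_le_univ _
      have hSle : #S ≤ Fintype.card V := Finset.card_le_univ _
      have hST : Fintype.card V + 1 ≤ #S + #T := by omega
      have hsub : S ×ˢ T ⊆ F := by
        intro p hp
        rw [Finset.mem_product] at hp
        by_contra hpF
        have h2 := hp.2
        rw [hT, Finset.mem_compl, Finset.mem_biUnion] at h2
        exact h2 ⟨p.1, hp.1, by simpa using hpF⟩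
      have hTle : #T ≤ Fintype.card V := Finset.card_le_univ _
      have hSne : S.Nonempty := by
        rw [← Finset.card_pos]; omega
      have hTne : T.Nonempty := by
        rw [← Finset.card_pos]; omega
      have hSd : Disjoint S Y0 := by
        rw [Finset.disjoint_left]
        intro x hx
        obtain ⟨y, hy⟩ := hTne
        exact hY0' x y (hsub (Finset.mem_product.mpr ⟨hx, hy⟩))
      have hTd : Disjoint T Y0 := by
        rw [Finset.disjoint_left]
        intro y hy
        obtain ⟨x, hx⟩ := hSne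
        exact hY0 x y (hsub (Finset.mem_product.mpr ⟨hx, hy⟩))
      have h1 : #S + #Y0 ≤ Fintype.card V := by
        rw [← Finset.card_union_of_disjoint hSd]; exact Finset.card_le_univ _
      have h2 : #T + #Y0 ≤ Fintype.card V := by
        rw [← Finset.card_union_of_disjoint hTd]; exact Finset.card_le_univ _
      have h3 : #S * #T ≤ #F := by
        rw [← Finset.card_product]; exact Finset.card_le_card hsub
      obtain ⟨a, ha⟩ := Nat.exists_eq_add_of_le (show #Y0 + 1 ≤ #S by omega)
      obtain ⟨b, hb⟩ := Nat.exists_eq_add_of_le (show #Y0 + 1 ≤ #T by omega)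
      have h4 : (#Y0 + 1) * (Fintype.card V - #Y0) ≤ #S * #T := by
        have : Fintype.card V - #Y0 ≤ a + b + #Y0 + 1 := by omega
        calc (#Y0 + 1) * (Fintype.card V - #Y0) ≤ (#Y0 + 1) * (a + b + #Y0 + 1) :=
              Nat.mul_le_mul_left _ this
          _ ≤ (#Y0 + 1 + a) * (#Y0 + 1 + b) := by nlinarith
          _ = _ := by rw [ha, hb]
      omega)
  have hbij : Function.Bijective f := Finite.injective_iff_bijective.mp hf1
  refine ⟨Equiv.ofBijective f hbij, fun x => ?_⟩
  have := hf2 x
  rw [Finset.mem_filter] at this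
  exact this.2

end Pool.Agent.V11199.SS
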