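import Pool.Agent.V11199.SS.Place
import Pool.Agent.V11199.SS.Fam

/-! Averages for the self-separation theorem. -/

namespace Pool.Agent.V11199.SS

open Finset

set_option linter.unusedSectionVars false

variable {V : Type} [Fintype V] [DecidableEq V]

theorem swap4 {β : Type} (T : Finset β) (w : V → V → V → V → β → ℝ) :
    ∑ i, ∑ j, ∑ p, ∑ q, ∑ r ∈ T, w i j p q r = ∑ r ∈ T, ∑ i, ∑ j, ∑ p, ∑ q, w i j p q r := by
  have h1 : ∀ i j p, ∑ q, ∑ r ∈ T, w i j p q r = ∑ r ∈ T, ∑ q, w i j p q r :=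
    fun i j p => Finset.sum_comm
  have h2 : ∀ i j, ∑ p, ∑ q, ∑ r ∈ T, w i j p q r = ∑ r ∈ T, ∑ p, ∑ q, w i j p q r := by
    intro i j
    simp_rw [h1]
    exact Finset.sum_comm
  have h3 : ∀ i, ∑ j, ∑ p, ∑ q, ∑ r ∈ T, w i j p q r = ∑ r ∈ T, ∑ j, ∑ p, ∑ q, w i j p q r := by
    intro i
    simp_rw [h2]
    exact Finset.sum_comm
  simp_rw [h3]
  exact Finset.sum_comm

/-- the potential -/
noncomputable def GG (A : Finset (Fin 3 → V)) : V ⊕ V → V ⊕ V → V → V → ℝ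
  | Sum.inl i, Sum.inr j, p, q => ∑ r ∈ A ×ˢ A,
      ((if r.2 1 = q ∧ r.2 0 = p ∧ r.1 1 = j ∧ r.1 0 = i then 1 else 0) +
        (if r.1 1 = q ∧ r.2 0 = p ∧ r.2 1 = j ∧ r.1 0 = i then 1 else 0))
  | _, _, _, _ => 0

theorem GG_nonneg (A : Finset (Fin 3 → V)) (x y : V ⊕ V) (p q : V) : 0 ≤ GG A x y p q := by
  rcases x with i | i <;> rcases y with j | j <;> simp only [GG, le_refl]
  exact Finset.sum_nonneg (fun r _ => by positivity)

theorem GG_diag (A : Finset (Fin 3 → V)) (x : V ⊕ V) (p q : V) : GG A x x p q = 0 := by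
  rcases x with i | i <;> simp only [GG]

theorem GG_total (A : Finset (Fin 3 → V)) (I J : Finset V) :
    ∑ x ∈ I.disjSum J, ∑ y ∈ I.disjSum J, ∑ p, ∑ q, GG A x y p q ≤ 2 * (#A : ℝ) ^ 2 := by
  have h1 : ∑ x ∈ I.disjSum J, ∑ y ∈ I.disjSum J, ∑ p, ∑ q, GG A x y p q =
      ∑ i ∈ I, ∑ j ∈ J, ∑ p, ∑ q, GG A (Sum.inl i) (Sum.inr j) p q := by
    simp [Finset.sum_disjSum, GG]
  rw [h1]
  have h2 : ∑ i ∈ I, ∑ j ∈ J, ∑ p, ∑ q, GG A (Sum.inl i) (Sum.inr j) p q ≤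
      ∑ i, ∑ j, ∑ p, ∑ q, GG A (Sum.inl i) (Sum.inr j) p q := by
    refine (Finset.sum_le_sum (fun i _ => Finset.sum_le_sum_of_subset_of_nonneg
      (Finset.subset_univ J) (fun j _ _ => ?_))).trans
      (Finset.sum_le_sum_of_subset_of_nonneg (Finset.subset_univ I) (fun i _ _ => ?_))
    · exact Finset.sum_nonneg (fun p _ => Finset.sum_nonneg (fun q _ => GG_nonneg A _ _ p q))
    · exact Finset.sum_nonneg (fun j _ => Finset.sum_nonneg (fun p _ =>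
        Finset.sum_nonneg (fun q _ => GG_nonneg A _ _ p q)))
  refine h2.trans (le_of_eq ?_)
  simp only [GG]
  rw [swap4]
  have h3 : ∀ r ∈ A ×ˢ A, ∑ i : V, ∑ j : V, ∑ p : V, ∑ q : V,
      (((if r.2 1 = q ∧ r.2 0 = p ∧ r.1 1 = j ∧ r.1 0 = i then 1 else 0) : ℝ) +
        (if r.1 1 = q ∧ r.2 0 = p ∧ r.2 1 = j ∧ r.1 0 = i then 1 else 0)) = 2 := by
    intro r _
    simp only [Finset.sum_add_distrib]
    have e1 : ∑ i : V, ∑ j : V, ∑ p : V, ∑ q : V,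
      ((if r.2 1 = q ∧ r.2 0 = p ∧ r.1 1 = j ∧ r.1 0 = i then 1 else 0) : ℝ) = 1 := by
      simp [ite_and]
    have e2 : ∑ i : V, ∑ j : V, ∑ p : V, ∑ q : V,
      ((if r.1 1 = q ∧ r.2 0 = p ∧ r.2 1 = j ∧ r.1 0 = i then 1 else 0) : ℝ) = 1 := by
      simp [ite_and]
    rw [e1, e2]
    norm_num
  rw [Finset.sum_congr rfl h3, Finset.sum_const, Finset.card_product, nsmul_eq_mul]
  push_cast
  ring

/-- indicator of a transition -/
noncomputable def tr (I : Finset V) (u : V → V) (x y : V) : ℝ := if x ∈ I ∧ y = u x then 1 else 0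

theorem tr_nonneg (I : Finset V) (u : V → V) (x y : V) : 0 ≤ tr I u x y := by
  unfold tr; positivity

theorem pot_le (A : Finset (Fin 3 → V)) (I J : Finset V) (f : V ⊕ V → V) :
    ∑ r ∈ A ×ˢ A, (tr I (fun i => f (Sum.inl i)) (r.1 0) (r.2 0) *
        tr J (fun j => f (Sum.inr j)) (r.1 1) (r.2 1)) +
      ∑ r ∈ A ×ˢ A, (tr I (fun i => f (Sum.inl i)) (r.1 0) (r.2 0) *
        tr J (fun j => f (Sum.inr j)) (r.2 1) (r.1 1)) ≤
      ∑ x ∈ I.disjSum J, ∑ y ∈ I.disjSum J, GG A x y (f x) (f y) := by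
  have h1 : ∑ x ∈ I.disjSum J, ∑ y ∈ I.disjSum J, GG A x y (f x) (f y) =
      ∑ i ∈ I, ∑ j ∈ J, GG A (Sum.inl i) (Sum.inr j) (f (Sum.inl i)) (f (Sum.inr j)) := by
    simp [Finset.sum_disjSum, GG]
  rw [h1]
  simp only [GG]
  have h2 : ∑ i ∈ I, ∑ j ∈ J, ∑ r ∈ A ×ˢ A,
      (((if r.2 1 = f (Sum.inr j) ∧ r.2 0 = f (Sum.inl i) ∧ r.1 1 = j ∧ r.1 0 = i
        then 1 else 0) : ℝ) +
        (if r.1 1 = f (Sum.inr j) ∧ r.2 0 = f (Sum.inl i) ∧ r.2 1 = j ∧ r.1 0 = i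
          then 1 else 0)) =
      ∑ r ∈ A ×ˢ A, ∑ i ∈ I, ∑ j ∈ J,
      (((if r.2 1 = f (Sum.inr j) ∧ r.2 0 = f (Sum.inl i) ∧ r.1 1 = j ∧ r.1 0 = i
        then 1 else 0) : ℝ) +
        (if r.1 1 = f (Sum.inr j) ∧ r.2 0 = f (Sum.inl i) ∧ r.2 1 = j ∧ r.1 0 = i
          then 1 else 0)) := by
    have : ∀ i, ∑ j ∈ J, ∑ r ∈ A ×ˢ A,
      (((if r.2 1 = f (Sum.inr j) ∧ r.2 0 = f (Sum.inl i) ∧ r.1 1 = j ∧ r.1 0 = i
        then 1 else 0) : ℝ) +
        (if r.1 1 = f (Sum.inr j) ∧ r.2 0 = f (Sum.inl i) ∧ r.2 1 = j ∧ r.1 0 = i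
          then 1 else 0)) =
        ∑ r ∈ A ×ˢ A, ∑ j ∈ J,
      (((if r.2 1 = f (Sum.inr j) ∧ r.2 0 = f (Sum.inl i) ∧ r.1 1 = j ∧ r.1 0 = i
        then 1 else 0) : ℝ) +
        (if r.1 1 = f (Sum.inr j) ∧ r.2 0 = f (Sum.inl i) ∧ r.2 1 = j ∧ r.1 0 = i
          then 1 else 0)) := fun i => Finset.sum_comm
    simp_rw [this]
    exact Finset.sum_comm
  rw [h2, ← Finset.sum_add_distrib]
  refine Finset.sum_le_sum (fun r _ => ?_)
  simp only [Finset.sum_add_distrib]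
  refine add_le_add ?_ ?_
  · by_cases h : (r.1 0 ∈ I ∧ r.2 0 = f (Sum.inl (r.1 0))) ∧
      (r.1 1 ∈ J ∧ r.2 1 = f (Sum.inr (r.1 1)))
    · unfold tr
      rw [if_pos h.1, if_pos h.2, one_mul]
      refine le_trans ?_ (Finset.single_le_sum (f := fun i => ∑ j ∈ J,
        ((if r.2 1 = f (Sum.inr j) ∧ r.2 0 = f (Sum.inl i) ∧ r.1 1 = j ∧ r.1 0 = i
        then 1 else 0) : ℝ)) (fun i _ => Finset.sum_nonneg (fun j _ => by positivity)) h.1.1)
      refine le_trans ?_ (Finset.single_le_sum (f := fun j =>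
        ((if r.2 1 = f (Sum.inr j) ∧ r.2 0 = f (Sum.inl (r.1 0)) ∧ r.1 1 = j ∧ r.1 0 = r.1 0
        then 1 else 0) : ℝ)) (fun j _ => by positivity) h.2.1)
      rw [if_pos (by exact ⟨h.2.2, h.1.2, rfl, rfl⟩)]
    · have : tr I (fun i => f (Sum.inl i)) (r.1 0) (r.2 0) *
        tr J (fun j => f (Sum.inr j)) (r.1 1) (r.2 1) = 0 := by
        unfold tr
        rcases not_and_or.mp h with h' | h'
        · rw [if_neg h', zero_mul]
        · rw [if_neg h', mul_zero]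
      rw [this]
      exact Finset.sum_nonneg (fun i _ => Finset.sum_nonneg (fun j _ => by positivity))
  · by_cases h : (r.1 0 ∈ I ∧ r.2 0 = f (Sum.inl (r.1 0))) ∧
      (r.2 1 ∈ J ∧ r.1 1 = f (Sum.inr (r.2 1)))
    · unfold tr
      rw [if_pos h.1, if_pos h.2, one_mul]
      refine le_trans ?_ (Finset.single_le_sum (f := fun i => ∑ j ∈ J,
        ((if r.1 1 = f (Sum.inr j) ∧ r.2 0 = f (Sum.inl i) ∧ r.2 1 = j ∧ r.1 0 = i
        then 1 else 0) : ℝ)) (fun i _ => Finset.sum_nonneg (fun j _ => by positivity)) h.1.1)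
      refine le_trans ?_ (Finset.single_le_sum (f := fun j =>
        ((if r.1 1 = f (Sum.inr j) ∧ r.2 0 = f (Sum.inl (r.1 0)) ∧ r.2 1 = j ∧ r.1 0 = r.1 0
        then 1 else 0) : ℝ)) (fun j _ => by positivity) h.2.1)
      rw [if_pos (by exact ⟨h.2.2, h.1.2, rfl, rfl⟩)]
    · have : tr I (fun i => f (Sum.inl i)) (r.1 0) (r.2 0) *
        tr J (fun j => f (Sum.inr j)) (r.2 1) (r.1 1) = 0 := by
        unfold tr
        rcases not_and_or.mp h with h' | h'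
        · rw [if_neg h', zero_mul]
        · rw [if_neg h', mul_zero]
      rw [this]
      exact Finset.sum_nonneg (fun i _ => Finset.sum_nonneg (fun j _ => by positivity))

theorem swap_prod (A : Finset (Fin 3 → V)) (g : (Fin 3 → V) × (Fin 3 → V) → ℝ) :
    ∑ r ∈ A ×ˢ A, g r = ∑ r ∈ A ×ˢ A, g (r.2, r.1) := by
  refine Finset.sum_nbij' (fun r => (r.2, r.1)) (fun r => (r.2, r.1)) ?_ ?_ ?_ ?_ ?_
  · intro r hr
    rw [Finset.mem_product] at hr ⊢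
    exact ⟨hr.2, hr.1⟩
  · intro r hr
    rw [Finset.mem_product] at hr ⊢
    exact ⟨hr.2, hr.1⟩
  · intro r _; rfl
  · intro r _; rfl
  · intro r _; rfl

/-- transitions into light classes are few -/
theorem tr_sum_le (A : Finset (Fin 3 → V)) (I : Finset V) (u : V → V) (d : Fin 3) (Δ : ℝ)
    (hΔ : 0 ≤ Δ) (hu : ∀ i ∈ I, (#{a ∈ A | a d = u i} : ℝ) ≤ Δ) :
    ∑ r ∈ A ×ˢ A, tr I u (r.1 d) (r.2 d) ≤ #A * Δ := by
  rw [Finset.sum_product]
  have : ∀ a ∈ A, ∑ b ∈ A, tr I u (a d) (b d) ≤ Δ := by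
    intro a _
    by_cases ha : a d ∈ I
    · have h1 : ∑ b ∈ A, tr I u (a d) (b d) = (#{b ∈ A | b d = u (a d)} : ℝ) := by
        unfold tr
        rw [Finset.card_filter]
        push_cast
        refine Finset.sum_congr rfl (fun b _ => ?_)
        by_cases hb : b d = u (a d)
        · rw [if_pos ⟨ha, hb⟩, if_pos hb]
        · rw [if_neg (fun h => hb h.2), if_neg hb]
      rw [h1]
      exact hu _ ha
    · have h1 : ∑ b ∈ A, tr I u (a d) (b d) = 0 := by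
        refine Finset.sum_eq_zero (fun b _ => ?_)
        unfold tr
        rw [if_neg (fun h => ha h.1)]
      rw [h1]
      exact hΔ
  calc ∑ a ∈ A, ∑ b ∈ A, tr I u (a d) (b d) ≤ ∑ _a ∈ A, Δ := Finset.sum_le_sum this
    _ = #A * Δ := by rw [Finset.sum_const, nsmul_eq_mul]

end Pool.Agent.V11199.SS
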