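import Mathlib

/-! Greedy placement with potentials, and the degeneracy bound. -/

namespace Pool.Agent.V11199.SS

open Finset

/-- averaging over a set of allowed positions -/
theorem exists_le_avg {P : Type} [Fintype P] [DecidableEq P] (c : ℝ) (hc : 0 < c)
    (Q : Finset P) (hQ : c ≤ (Q.card : ℝ)) (F : P → ℝ) (hF : ∀ p, 0 ≤ F p) :
    ∃ p ∈ Q, F p ≤ (1 / c) * ∑ p, F p := by
  by_contra hcon
  push Not at hcon
  have hQpos : 0 < (Q.card : ℝ) := lt_of_lt_of_le hc hQ
  have hne : Q.Nonempty := by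
    rw [← Finset.card_pos]
    exact_mod_cast hQpos
  have h1 : ∑ p ∈ Q, ((1 / c) * ∑ p, F p) < ∑ p ∈ Q, F p :=
    Finset.sum_lt_sum_of_nonempty hne hcon
  have h2 : ∑ p ∈ Q, F p ≤ ∑ p, F p :=
    Finset.sum_le_sum_of_subset_of_nonneg (Finset.subset_univ _) (fun p _ _ => hF p)
  have hS : 0 ≤ ∑ p, F p := Finset.sum_nonneg (fun p _ => hF p)
  rw [Finset.sum_const, nsmul_eq_mul] at h1
  have h3 : ∑ p, F p ≤ (Q.card : ℝ) * ((1 / c) * ∑ p, F p) := by
    have : (1 : ℝ) ≤ (Q.card : ℝ) * (1 / c) := by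
      rw [mul_one_div, le_div_iff₀ hc]
      linarith
    calc ∑ p, F p = 1 * ∑ p, F p := by ring
      _ ≤ ((Q.card : ℝ) * (1 / c)) * ∑ p, F p := mul_le_mul_of_nonneg_right this hS
      _ = _ := by ring
  linarith

theorem place {X P : Type} [DecidableEq X] [Fintype P] [DecidableEq P] [Nonempty P]
    (conf : X → X → P → P → Prop) (hsym : ∀ x y p q, conf x y p q → conf y x q p)
    (Q : X → Finset P) (c : ℝ) (hc : 0 < c) (S : Finset X)
    (hS : ∀ S' ⊆ S, S'.Nonempty → ∃ x ∈ S', ∀ f : X → P, (∀ y ∈ S', y ≠ x → f y ∈ Q y) →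
      ∃ R : Finset P, R ⊆ Q x ∧ c ≤ (R.card : ℝ) ∧ ∀ p ∈ R, ∀ y ∈ S', y ≠ x →
        ¬ conf x y p (f y)) :
    ∀ (G : X → X → P → P → ℝ) (h : X → P → ℝ), (∀ x y p q, 0 ≤ G x y p q) →
      (∀ x p, 0 ≤ h x p) → (∀ x p q, G x x p q = 0) →
      ∃ f : X → P, (∀ x ∈ S, f x ∈ Q x) ∧
        (∀ x ∈ S, ∀ y ∈ S, x ≠ y → ¬ conf x y (f x) (f y)) ∧
        ∑ x ∈ S, h x (f x) + ∑ x ∈ S, ∑ y ∈ S, G x y (f x) (f y) ≤
          (1 / c) * ∑ x ∈ S, ∑ p, h x p +
          (1 / c) ^ 2 * ∑ x ∈ S, ∑ y ∈ S, ∑ p, ∑ q, G x y p q := by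
  induction' hn : S.card with n ih generalizing S
  · intro G h _ _ _
    have : S = ∅ := Finset.card_eq_zero.mp hn
    subst this
    refine ⟨fun _ => Classical.arbitrary P, ?_, ?_, ?_⟩ <;> simp
  · intro G h hG hh hd
    have hne : S.Nonempty := by
      rw [← Finset.card_pos]
      omega
    obtain ⟨x, hx, hxR⟩ := hS S (Finset.Subset.refl _) hne
    obtain ⟨S', hS'⟩ : ∃ S', S' = S.erase x := ⟨_, rfl⟩
    have hcard' : S'.card = n := by
      rw [hS', Finset.card_erase_of_mem hx]
      omega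
    have hxS' : x ∉ S' := by rw [hS']; exact Finset.notMem_erase x S
    have hins : insert x S' = S := by rw [hS']; exact Finset.insert_erase hx
    have hsub : S' ⊆ S := by rw [hS']; exact Finset.erase_subset _ _
    obtain ⟨f, hf1, hf2, hf3⟩ := ih S' (fun S'' h1 h2 => hS S'' (h1.trans hsub) h2) hcard' G
      (fun y q => h y q + (1 / c) * ∑ p, (G x y p q + G y x q p)) hG
      (fun y q => by
        have : 0 ≤ ∑ p, (G x y p q + G y x q p) :=
          Finset.sum_nonneg (fun p _ => add_nonneg (hG _ _ _ _) (hG _ _ _ _))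
        have h2 : 0 ≤ 1 / c := by positivity
        exact add_nonneg (hh _ _) (mul_nonneg h2 this)) hd
    obtain ⟨R, hRQ, hRc, hRconf⟩ := hxR f (fun y hy hyx => hf1 y (by
      rw [hS']; exact Finset.mem_erase.mpr ⟨hyx, hy⟩))
    obtain ⟨p, hpR, hp⟩ := exists_le_avg c hc R hRc
      (fun p => h x p + ∑ y ∈ S', (G x y p (f y) + G y x (f y) p))
      (fun p => add_nonneg (hh _ _) (Finset.sum_nonneg
        (fun y _ => add_nonneg (hG _ _ _ _) (hG _ _ _ _))))
    refine ⟨Function.update f x p, ?_, ?_, ?_⟩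
    · intro y hy
      by_cases hyx : y = x
      · subst hyx
        simpa using hRQ hpR
      · rw [Function.update_of_ne hyx]
        exact hf1 y (by rw [hS']; exact Finset.mem_erase.mpr ⟨hyx, hy⟩)
    · intro y hy z hz hyz
      by_cases hyx : y = x
      · subst hyx
        have hzy : z ≠ y := fun h => hyz h.symm
        rw [Function.update_self, Function.update_of_ne hzy]
        exact hRconf p hpR z hz hzy
      · by_cases hzx : z = x
        · subst hzx
          rw [Function.update_self, Function.update_of_ne hyz]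
          intro hc'
          exact hRconf p hpR y hy hyz (hsym _ _ _ _ hc')
        · rw [Function.update_of_ne hyx, Function.update_of_ne hzx]
          exact hf2 y (by rw [hS']; exact Finset.mem_erase.mpr ⟨hyx, hy⟩) z
            (by rw [hS']; exact Finset.mem_erase.mpr ⟨hzx, hz⟩) hyz
    · -- the potential
      have hupd : ∀ y ∈ S', Function.update f x p y = f y := by
        intro y hy
        rw [Function.update_of_ne]
        rintro rfl
        exact hxS' hy
      have e1 : ∑ y ∈ S, h y (Function.update f x p y) = h x p + ∑ y ∈ S', h y (f y) := by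
        rw [← hins, Finset.sum_insert hxS', Function.update_self]
        congr 1
        exact Finset.sum_congr rfl (fun y hy => by rw [hupd y hy])
      have e2 : ∑ y ∈ S, ∑ z ∈ S, G y z (Function.update f x p y) (Function.update f x p z) =
          ∑ y ∈ S', (G x y p (f y) + G y x (f y) p) + ∑ y ∈ S', ∑ z ∈ S', G y z (f y) (f z) := by
        rw [← hins, Finset.sum_insert hxS', Finset.sum_insert hxS', Function.update_self,
          hd, zero_add]
        have a1 : ∑ z ∈ S', G x z p (Function.update f x p z) = ∑ z ∈ S', G x z p (f z) :=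
          Finset.sum_congr rfl (fun z hz => by rw [hupd z hz])
        have a2 : ∑ y ∈ S', ∑ z ∈ insert x S', G y z (Function.update f x p y)
            (Function.update f x p z) =
            ∑ y ∈ S', G y x (f y) p + ∑ y ∈ S', ∑ z ∈ S', G y z (f y) (f z) := by
          rw [← Finset.sum_add_distrib]
          refine Finset.sum_congr rfl (fun y hy => ?_)
          rw [Finset.sum_insert hxS', Function.update_self, hupd y hy]
          congr 1
          exact Finset.sum_congr rfl (fun z hz => by rw [hupd z hz])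
        rw [a1, a2, Finset.sum_add_distrib]
        ring
      have e3 : ∑ y ∈ S, ∑ p, h y p = ∑ p, h x p + ∑ y ∈ S', ∑ p, h y p := by
        rw [← hins, Finset.sum_insert hxS']
      have e4 : ∑ y ∈ S, ∑ z ∈ S, ∑ p, ∑ q, G y z p q =
          ∑ y ∈ S', ∑ p, ∑ q, (G x y p q + G y x q p) +
          ∑ y ∈ S', ∑ z ∈ S', ∑ p, ∑ q, G y z p q := by
        rw [← hins, Finset.sum_insert hxS', Finset.sum_insert hxS']
        have a0 : ∑ p, ∑ q, G x x p q = 0 := by
          simp [hd]
        have a2 : ∑ y ∈ S', ∑ z ∈ insert x S', ∑ p, ∑ q, G y z p q =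
            ∑ y ∈ S', ∑ p, ∑ q, G y x p q + ∑ y ∈ S', ∑ z ∈ S', ∑ p, ∑ q, G y z p q := by
          rw [← Finset.sum_add_distrib]
          refine Finset.sum_congr rfl (fun y hy => ?_)
          rw [Finset.sum_insert hxS']
        have a3 : ∑ y ∈ S', ∑ p, ∑ q, (G x y p q + G y x q p) =
            ∑ y ∈ S', ∑ p, ∑ q, G x y p q + ∑ y ∈ S', ∑ p, ∑ q, G y x p q := by
          rw [← Finset.sum_add_distrib]
          refine Finset.sum_congr rfl (fun y hy => ?_)
          simp only [Finset.sum_add_distrib]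
          congr 1
          exact Finset.sum_comm
        rw [a0, a2, a3]
        ring
      have e5 : ∑ y ∈ S', (h y (f y) + (1 / c) * ∑ p, (G x y p (f y) + G y x (f y) p)) =
          ∑ y ∈ S', h y (f y) + (1 / c) * ∑ p, ∑ y ∈ S', (G x y p (f y) + G y x (f y) p) := by
        rw [Finset.sum_add_distrib, ← Finset.mul_sum, Finset.sum_comm]
      have e6 : ∑ y ∈ S', ∑ q, (h y q + (1 / c) * ∑ p, (G x y p q + G y x q p)) =
          ∑ y ∈ S', ∑ q, h y q + (1 / c) * ∑ y ∈ S', ∑ p, ∑ q, (G x y p q + G y x q p) := by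
        rw [Finset.mul_sum, ← Finset.sum_add_distrib]
        refine Finset.sum_congr rfl (fun y hy => ?_)
        rw [Finset.sum_add_distrib, ← Finset.mul_sum]
        congr 2
        exact Finset.sum_comm
      rw [e5, e6] at hf3
      rw [e1, e2, e3, e4]
      have e7 : ∑ p, (h x p + ∑ y ∈ S', (G x y p (f y) + G y x (f y) p)) =
          ∑ p, h x p + ∑ p, ∑ y ∈ S', (G x y p (f y) + G y x (f y) p) :=
        Finset.sum_add_distrib
      rw [e7] at hp
      have hp' : h x p + ∑ y ∈ S', (G x y p (f y) + G y x (f y) p) ≤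
        1 / c * (∑ p, h x p + ∑ p, ∑ y ∈ S', (G x y p (f y) + G y x (f y) p)) := hp
      nlinarith [hf3, hp']

/-- minimum degree bound -/
theorem degen {X : Type} [DecidableEq X] (E : Finset (X × X))
    (S : Finset X) (hS : S.Nonempty) :
    ∃ x ∈ S, (#{y ∈ S | (x, y) ∈ E}) ^ 2 ≤ #E := by
  obtain ⟨x, hx, hmin⟩ := Finset.exists_min_image S (fun x => #{y ∈ S | (x, y) ∈ E}) hS
  refine ⟨x, hx, ?_⟩
  set t := #{y ∈ S | (x, y) ∈ E} with ht
  have h1 : ∀ y ∈ ({y ∈ S | (x, y) ∈ E} : Finset X), t ≤ #{e ∈ E | e.1 = y} := by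
    intro y hy
    rw [Finset.mem_filter] at hy
    refine (hmin y hy.1).trans ?_
    refine Finset.card_le_card_of_injOn (fun z => (y, z)) ?_ ?_
    · intro z hz
      rw [Finset.mem_coe, Finset.mem_filter] at hz
      rw [Finset.mem_coe, Finset.mem_filter]
      exact ⟨hz.2, rfl⟩
    · intro z _ z' _ h
      simpa using h
  calc t ^ 2 = ∑ _y ∈ ({y ∈ S | (x, y) ∈ E} : Finset X), t := by
        rw [Finset.sum_const, smul_eq_mul, ← ht]; ring
    _ ≤ ∑ y ∈ ({y ∈ S | (x, y) ∈ E} : Finset X), #{e ∈ E | e.1 = y} := Finset.sum_le_sum h1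
    _ ≤ #E := by
        rw [← Finset.card_biUnion]
        · refine Finset.card_le_card ?_
          intro e he
          rw [Finset.mem_biUnion] at he
          obtain ⟨y, _, hy⟩ := he
          exact (Finset.mem_filter.mp hy).1
        · intro y _ z _ hyz
          rw [Function.onFun, Finset.disjoint_left]
          intro e he he'
          rw [Finset.mem_filter] at he he'
          exact hyz (he.2.symm.trans he'.2)

end Pool.Agent.V11199.SS
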