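import Pool.Agent.V11199.SS.Uv

/-! The self-separation theorem for the product action. -/

namespace Pool.Agent.V11199.SS

open Finset

set_option linter.unusedSectionVars false

variable {V : Type} [Fintype V] [DecidableEq V]

theorem avg_swap (A : Finset (Fin 3 → V)) (n1 n2 : ℕ) (s1 : Fin n1 → Equiv.Perm V)
    (s2 : Fin n2 → Equiv.Perm V) :
    ∑ t1, ∑ t2, ∑ r ∈ A ×ˢ A, ((if s1 t1 (r.1 0) = r.2 0 then (1 : ℝ) else 0) *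
      (if s2 t2 (r.1 1) = r.2 1 then (1 : ℝ) else 0)) =
    ∑ r ∈ A ×ˢ A, ((#{t | s1 t (r.1 0) = r.2 0} : ℝ) * (#{t | s2 t (r.1 1) = r.2 1} : ℝ)) := by
  have h1 : ∀ t1, ∑ t2, ∑ r ∈ A ×ˢ A, ((if s1 t1 (r.1 0) = r.2 0 then (1 : ℝ) else 0) *
      (if s2 t2 (r.1 1) = r.2 1 then (1 : ℝ) else 0)) =
      ∑ r ∈ A ×ˢ A, ∑ t2, ((if s1 t1 (r.1 0) = r.2 0 then (1 : ℝ) else 0) *
      (if s2 t2 (r.1 1) = r.2 1 then (1 : ℝ) else 0)) := fun t1 => Finset.sum_comm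
  simp_rw [h1]
  rw [Finset.sum_comm]
  refine Finset.sum_congr rfl (fun r _ => ?_)
  rw [Finset.card_filter, Finset.card_filter]
  push_cast
  rw [Finset.sum_mul_sum]

theorem avg_bound (A : Finset (Fin 3 → V)) (C m : ℕ)
    (hA : #A ≤ C * m ^ 3) (I J : Finset V) (f : V ⊕ V → V) (n1 n2 : ℕ)
    (hn1 : m ^ 2 ≤ 2 * n1) (hn2 : m ^ 2 ≤ 2 * n2) (hmpos : 0 < m)
    (hI : ∀ i ∈ I, f (Sum.inl i) ∈ W A (4 * C * m) 0)
    (hJ : ∀ j ∈ J, f (Sum.inr j) ∈ W A (4 * C * m) 1)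
    (hpot : ∑ x ∈ I.disjSum J, ∑ y ∈ I.disjSum J, GG A x y (f x) (f y) ≤
        (1 / ((m : ℝ) ^ 2 / 2)) ^ 2 * (2 * (#A : ℝ) ^ 2))
    (s1 : Fin n1 → Equiv.Perm V) (s2 : Fin n2 → Equiv.Perm V)
    (h1 : ∀ x y, (#{t | s1 t x = y} : ℝ) ≤
      n1 * (tr I (fun i => f (Sum.inl i)) x y + tr I (fun i => f (Sum.inl i)) y x) + 1)
    (h2 : ∀ x y, (#{t | s2 t x = y} : ℝ) ≤
      n2 * (tr J (fun i => f (Sum.inr i)) x y + tr J (fun i => f (Sum.inr i)) y x) + 1) :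
    ∑ r ∈ A ×ˢ A, ((#{t | s1 t (r.1 0) = r.2 0} : ℝ) * (#{t | s2 t (r.1 1) = r.2 1} : ℝ)) ≤
      (n1 * n2) * (52 * C ^ 2 * m ^ 2) := by
  obtain ⟨u, hu⟩ : ∃ u : V → V, u = fun i => f (Sum.inl i) := ⟨_, rfl⟩
  obtain ⟨v, hv⟩ : ∃ v : V → V, v = fun i => f (Sum.inr i) := ⟨_, rfl⟩
  rw [← hu] at h1
  rw [← hv] at h2
  have hN : (#A : ℝ) ≤ C * (m : ℝ) ^ 3 := by exact_mod_cast hA
  have hN0 : (0 : ℝ) ≤ (#A : ℝ) := Nat.cast_nonneg _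
  have hm0 : (0 : ℝ) < (m : ℝ) := by exact_mod_cast hmpos
  have hC0 : (0 : ℝ) ≤ (C : ℝ) := Nat.cast_nonneg _
  have hn1' : (m : ℝ) ^ 2 ≤ 2 * (n1 : ℝ) := by exact_mod_cast hn1
  have hn2' : (m : ℝ) ^ 2 ≤ 2 * (n2 : ℝ) := by exact_mod_cast hn2
  have step1 : ∑ r ∈ A ×ˢ A, ((#{t | s1 t (r.1 0) = r.2 0} : ℝ) *
      (#{t | s2 t (r.1 1) = r.2 1} : ℝ)) ≤
      ∑ r ∈ A ×ˢ A, ((n1 * (tr I u (r.1 0) (r.2 0) + tr I u (r.2 0) (r.1 0)) + 1) *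
        (n2 * (tr J v (r.1 1) (r.2 1) + tr J v (r.2 1) (r.1 1)) + 1)) := by
    refine Finset.sum_le_sum (fun r _ => ?_)
    have a1 := tr_nonneg I u (r.1 0) (r.2 0)
    have a2 := tr_nonneg I u (r.2 0) (r.1 0)
    have hn : (0 : ℝ) ≤ n1 := Nat.cast_nonneg _
    exact mul_le_mul (h1 _ _) (h2 _ _) (Nat.cast_nonneg _) (by positivity)
  have step2 : ∑ r ∈ A ×ˢ A, ((n1 * (tr I u (r.1 0) (r.2 0) + tr I u (r.2 0) (r.1 0)) + 1) *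
        (n2 * (tr J v (r.1 1) (r.2 1) + tr J v (r.2 1) (r.1 1)) + 1)) =
      n1 * n2 * (∑ r ∈ A ×ˢ A, tr I u (r.1 0) (r.2 0) * tr J v (r.1 1) (r.2 1) +
        ∑ r ∈ A ×ˢ A, tr I u (r.1 0) (r.2 0) * tr J v (r.2 1) (r.1 1) +
        ∑ r ∈ A ×ˢ A, tr I u (r.2 0) (r.1 0) * tr J v (r.1 1) (r.2 1) +
        ∑ r ∈ A ×ˢ A, tr I u (r.2 0) (r.1 0) * tr J v (r.2 1) (r.1 1)) +
      n1 * (∑ r ∈ A ×ˢ A, tr I u (r.1 0) (r.2 0) + ∑ r ∈ A ×ˢ A, tr I u (r.2 0) (r.1 0)) +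
      n2 * (∑ r ∈ A ×ˢ A, tr J v (r.1 1) (r.2 1) + ∑ r ∈ A ×ˢ A, tr J v (r.2 1) (r.1 1)) +
      (#A : ℝ) ^ 2 := by
    have : (#A : ℝ) ^ 2 = ∑ _r ∈ A ×ˢ A, (1 : ℝ) := by
      rw [Finset.sum_const, Finset.card_product, nsmul_eq_mul]
      push_cast
      ring
    rw [this]
    simp only [← Finset.sum_add_distrib, Finset.mul_sum]
    refine Finset.sum_congr rfl (fun r _ => ?_)
    ring
  have sw1 : ∑ r ∈ A ×ˢ A, tr I u (r.2 0) (r.1 0) = ∑ r ∈ A ×ˢ A, tr I u (r.1 0) (r.2 0) :=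
    swap_prod A (fun r => tr I u (r.2 0) (r.1 0))
  have sw2 : ∑ r ∈ A ×ˢ A, tr J v (r.2 1) (r.1 1) = ∑ r ∈ A ×ˢ A, tr J v (r.1 1) (r.2 1) :=
    swap_prod A (fun r => tr J v (r.2 1) (r.1 1))
  have sw3 : ∑ r ∈ A ×ˢ A, tr I u (r.2 0) (r.1 0) * tr J v (r.1 1) (r.2 1) =
      ∑ r ∈ A ×ˢ A, tr I u (r.1 0) (r.2 0) * tr J v (r.2 1) (r.1 1) :=
    swap_prod A (fun r => tr I u (r.2 0) (r.1 0) * tr J v (r.1 1) (r.2 1))
  have sw4 : ∑ r ∈ A ×ˢ A, tr I u (r.2 0) (r.1 0) * tr J v (r.2 1) (r.1 1) =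
      ∑ r ∈ A ×ˢ A, tr I u (r.1 0) (r.2 0) * tr J v (r.1 1) (r.2 1) :=
    swap_prod A (fun r => tr I u (r.2 0) (r.1 0) * tr J v (r.2 1) (r.1 1))
  have hp := pot_le A I J f
  rw [← hu, ← hv] at hp
  have hp2 := hp.trans hpot
  have hq1 : ∑ r ∈ A ×ˢ A, tr I u (r.1 0) (r.2 0) ≤ #A * (4 * C * m : ℝ) := by
    refine tr_sum_le A I u 0 (4 * C * m : ℝ) (by positivity) (fun i hi => ?_)
    have := mem_W.mp (hI i hi)
    rw [hu]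
    exact_mod_cast this
  have hq2 : ∑ r ∈ A ×ˢ A, tr J v (r.1 1) (r.2 1) ≤ #A * (4 * C * m : ℝ) := by
    refine tr_sum_le A J v 1 (4 * C * m : ℝ) (by positivity) (fun i hi => ?_)
    have := mem_W.mp (hJ i hi)
    rw [hv]
    exact_mod_cast this
  rw [step2, sw1, sw2, sw3, sw4] at step1
  refine step1.trans ?_
  generalize ∑ r ∈ A ×ˢ A, tr I u (r.1 0) (r.2 0) = X1 at *
  generalize ∑ r ∈ A ×ˢ A, tr J v (r.1 1) (r.2 1) = X2 at *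
  generalize ∑ r ∈ A ×ˢ A, tr I u (r.1 0) (r.2 0) * tr J v (r.1 1) (r.2 1) = X3 at *
  generalize ∑ r ∈ A ×ˢ A, tr I u (r.1 0) (r.2 0) * tr J v (r.2 1) (r.1 1) = X4 at *
  clear step1 step2 sw1 sw2 sw3 sw4 hp hpot
  have hNsq : (#A : ℝ) ^ 2 ≤ C ^ 2 * (m : ℝ) ^ 6 := by
    calc (#A : ℝ) ^ 2 ≤ (C * (m : ℝ) ^ 3) ^ 2 := pow_le_pow_left₀ hN0 hN 2
      _ = _ := by ring
  have hP : X3 + X4 ≤ 8 * C ^ 2 * m ^ 2 := by
    refine hp2.trans ?_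
    have : (1 / ((m : ℝ) ^ 2 / 2)) ^ 2 * (2 * (#A : ℝ) ^ 2) = 8 * (#A : ℝ) ^ 2 / m ^ 4 := by
      field_simp
      ring
    rw [this, div_le_iff₀ (by positivity)]
    nlinarith
  have hNΔ : (#A : ℝ) * (4 * C * m) ≤ 4 * C ^ 2 * m ^ 4 := by
    calc (#A : ℝ) * (4 * C * m) ≤ (C * (m : ℝ) ^ 3) * (4 * C * m) :=
          mul_le_mul_of_nonneg_right hN (by positivity)
      _ = _ := by ring
  have hX1 : X1 ≤ 4 * C ^ 2 * m ^ 4 := hq1.trans hNΔ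
  have hX2 : X2 ≤ 4 * C ^ 2 * m ^ 4 := hq2.trans hNΔ
  have hn10 : (0 : ℝ) ≤ n1 := Nat.cast_nonneg _
  have hn20 : (0 : ℝ) ≤ n2 := Nat.cast_nonneg _
  have t1 : (n1 : ℝ) * n2 * (X3 + X4 + X4 + X3) ≤ n1 * n2 * (16 * C ^ 2 * m ^ 2) :=
    mul_le_mul_of_nonneg_left (by linarith) (by positivity)
  have t2 : (n1 : ℝ) * (X1 + X1) ≤ n1 * n2 * (16 * C ^ 2 * m ^ 2) := by
    calc (n1 : ℝ) * (X1 + X1) ≤ n1 * (8 * C ^ 2 * m ^ 2 * m ^ 2) :=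
          mul_le_mul_of_nonneg_left (by nlinarith) hn10
      _ ≤ n1 * (8 * C ^ 2 * m ^ 2 * (2 * n2)) :=
          mul_le_mul_of_nonneg_left (mul_le_mul_of_nonneg_left hn2' (by positivity)) hn10
      _ = _ := by ring
  have t3 : (n2 : ℝ) * (X2 + X2) ≤ n1 * n2 * (16 * C ^ 2 * m ^ 2) := by
    calc (n2 : ℝ) * (X2 + X2) ≤ n2 * (8 * C ^ 2 * m ^ 2 * m ^ 2) :=
          mul_le_mul_of_nonneg_left (by nlinarith) hn20
      _ ≤ n2 * (8 * C ^ 2 * m ^ 2 * (2 * n1)) :=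
          mul_le_mul_of_nonneg_left (mul_le_mul_of_nonneg_left hn1' (by positivity)) hn20
      _ = _ := by ring
  have t4 : (#A : ℝ) ^ 2 ≤ n1 * n2 * (4 * C ^ 2 * m ^ 2) := by
    calc (#A : ℝ) ^ 2 ≤ (C : ℝ) ^ 2 * (m : ℝ) ^ 2 * ((m : ℝ) ^ 2 * (m : ℝ) ^ 2) := by
          linarith [hNsq, show (C : ℝ) ^ 2 * (m : ℝ) ^ 2 * ((m : ℝ) ^ 2 * (m : ℝ) ^ 2) =
            C ^ 2 * (m : ℝ) ^ 6 by ring]
      _ ≤ (C : ℝ) ^ 2 * (m : ℝ) ^ 2 * ((2 * (n1 : ℝ)) * (2 * (n2 : ℝ))) :=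
          mul_le_mul_of_nonneg_left (mul_le_mul hn1' hn2' (by positivity) (by positivity))
            (by positivity)
      _ = _ := by ring
  calc _ ≤ (n1 : ℝ) * n2 * (16 * C ^ 2 * m ^ 2) + n1 * n2 * (16 * C ^ 2 * m ^ 2) +
        n1 * n2 * (16 * C ^ 2 * m ^ 2) + n1 * n2 * (4 * C ^ 2 * m ^ 2) := by linarith
    _ = _ := by ring

theorem sep (A : Finset (Fin 3 → V)) (C m : ℕ) (hC : 0 < C) (hm : 1000000 * C ^ 5 ≤ m)
    (hV : Fintype.card V = m ^ 2) (hA : #A ≤ C * m ^ 3) :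
    ∃ σ : Fin 3 → Equiv.Perm V, ∀ a ∈ A, (fun i => σ i (a i)) ∉ A := by
  classical
  have hmpos : 0 < m := lt_of_lt_of_le (by positivity) hm
  have hn2 := numeric2 C m hC hm
  have hmm : 0 < m ^ 2 := by positivity
  have hs1 : 104 * C ^ 2 ≤ 104 * C ^ 2 * (4 * C * m) :=
    Nat.le_mul_of_pos_right _ (by positivity)
  have hW2 := light A C m hmpos hC hV hA 2
  obtain ⟨Y0, hY0s, hY0c⟩ := Finset.exists_subset_card_eq
    (show 104 * C ^ 2 ≤ #(W A (4 * C * m) 2) by omega)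
  obtain ⟨B, hBdef⟩ : ∃ B : Finset (V × V),
    B = (A.filter (fun a => a 2 ∈ Y0)).image (fun a => (a 0, a 1)) := ⟨_, rfl⟩
  have hB : #B ≤ 104 * C ^ 2 * (4 * C * m) := by
    rw [hBdef]
    refine Finset.card_image_le.trans ?_
    rw [Finset.card_eq_sum_card_fiberwise (f := fun a : Fin 3 → V => a 2) (t := Y0)
      (fun a ha => by
        have := Finset.mem_coe.mp ha
        exact Finset.mem_coe.mpr (Finset.mem_filter.mp this).2)]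
    calc ∑ y ∈ Y0, #{a ∈ A.filter (fun a => a 2 ∈ Y0) | a 2 = y}
        ≤ ∑ _y ∈ Y0, 4 * C * m := Finset.sum_le_sum (fun y hy => by
          refine le_trans ?_ (mem_W.mp (hY0s hy))
          refine Finset.card_le_card ?_
          intro a ha
          rw [Finset.mem_filter, Finset.mem_filter] at ha
          exact Finset.mem_filter.mpr ⟨ha.1.1, ha.2⟩)
      _ = 104 * C ^ 2 * (4 * C * m) := by rw [Finset.sum_const, hY0c, smul_eq_mul]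
  obtain ⟨I, hI⟩ : ∃ I : Finset V, I = B.image Prod.fst := ⟨_, rfl⟩
  obtain ⟨J, hJ⟩ : ∃ J : Finset V, J = B.image Prod.snd := ⟨_, rfl⟩
  have hIc : #I ≤ #B := by rw [hI]; exact Finset.card_image_le
  have hJc : #J ≤ #B := by rw [hJ]; exact Finset.card_image_le
  obtain ⟨f, hf1, hf2, hf3, hf4, hf5, hf6⟩ := exists_uv A C m hC hm hV hA B hB I J hI hJ
  obtain ⟨n1, s1, hn1, hs1inv, hs1I, hs1c⟩ := fam I (fun i => f (Sum.inl i)) hf1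
    (fun i hi => (hf3 i hi).1) (by rw [hV]; omega)
  obtain ⟨n2, s2, hn2', hs2inv, hs2J, hs2c⟩ := fam J (fun i => f (Sum.inr i)) hf2
    (fun i hi => (hf4 i hi).1) (by rw [hV]; omega)
  have hb1 : m ^ 2 ≤ 2 * n1 := by rw [← hn1, hV]; omega
  have hb2 : m ^ 2 ≤ 2 * n2 := by rw [← hn2', hV]; omega
  have havg := avg_bound A C m hA I J f n1 n2 hb1 hb2 hmpos (fun i hi => (hf3 i hi).2)
    (fun i hi => (hf4 i hi).2) hf6 s1 s2 (fun x y => hs1c x y) (fun x y => hs2c x y)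
  rw [← avg_swap] at havg
  -- choose the parameters
  obtain ⟨t1, t2, ht⟩ : ∃ t1 t2, ∑ r ∈ A ×ˢ A, ((if s1 t1 (r.1 0) = r.2 0 then (1 : ℝ) else 0) *
      (if s2 t2 (r.1 1) = r.2 1 then (1 : ℝ) else 0)) ≤ 52 * (C : ℝ) ^ 2 * (m : ℝ) ^ 2 := by
    by_contra hcon
    push Not at hcon
    have hn1pos : 0 < n1 := by
      have : 0 < m ^ 2 := by positivity
      omega
    have hn2pos : 0 < n2 := by
      have : 0 < m ^ 2 := by positivity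
      omega
    have : ∑ _t1 : Fin n1, ∑ _t2 : Fin n2, (52 * (C : ℝ) ^ 2 * (m : ℝ) ^ 2) <
        ∑ t1, ∑ t2, ∑ r ∈ A ×ˢ A, ((if s1 t1 (r.1 0) = r.2 0 then (1 : ℝ) else 0) *
      (if s2 t2 (r.1 1) = r.2 1 then (1 : ℝ) else 0)) := by
      refine Finset.sum_lt_sum_of_nonempty ⟨⟨0, hn1pos⟩, Finset.mem_univ _⟩ (fun t1 _ => ?_)
      exact Finset.sum_lt_sum_of_nonempty ⟨⟨0, hn2pos⟩, Finset.mem_univ _⟩
        (fun t2 _ => hcon t1 t2)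
    rw [Finset.sum_const, Finset.sum_const, Finset.card_univ, Finset.card_univ,
      Fintype.card_fin, Fintype.card_fin, nsmul_eq_mul, nsmul_eq_mul] at this
    have h3 : (n1 : ℝ) * (n2 * (52 * (C : ℝ) ^ 2 * (m : ℝ) ^ 2)) =
      (n1 * n2) * (52 * C ^ 2 * m ^ 2) := by ring
    linarith
  obtain ⟨T, hT⟩ : ∃ T : Finset ((Fin 3 → V) × (Fin 3 → V)),
    T = (A ×ˢ A).filter (fun r => s1 t1 (r.1 0) = r.2 0 ∧ s2 t2 (r.1 1) = r.2 1) := ⟨_, rfl⟩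
  have hTc : #T ≤ 52 * C ^ 2 * m ^ 2 := by
    have : (#T : ℝ) = ∑ r ∈ A ×ˢ A, ((if s1 t1 (r.1 0) = r.2 0 then (1 : ℝ) else 0) *
      (if s2 t2 (r.1 1) = r.2 1 then (1 : ℝ) else 0)) := by
      rw [hT, Finset.card_filter]
      push_cast
      refine Finset.sum_congr rfl (fun r _ => ?_)
      by_cases h1 : s1 t1 (r.1 0) = r.2 0 <;> by_cases h2 : s2 t2 (r.1 1) = r.2 1 <;>
        simp [h1, h2]
    rw [← this] at ht
    exact_mod_cast ht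
  obtain ⟨F, hF⟩ : ∃ F : Finset (V × V), F = T.image (fun r => (r.1 2, r.2 2)) := ⟨_, rfl⟩
  have hmemF : ∀ x y, (x, y) ∈ F ↔ ∃ a ∈ A, ∃ b ∈ A, s1 t1 (a 0) = b 0 ∧ s2 t2 (a 1) = b 1 ∧
      a 2 = x ∧ b 2 = y := by
    intro x y
    rw [hF, Finset.mem_image]
    constructor
    · rintro ⟨r, hr, hrxy⟩
      rw [hT, Finset.mem_filter, Finset.mem_product] at hr
      have h1 : r.1 2 = x := congrArg Prod.fst hrxy
      have h2 : r.2 2 = y := congrArg Prod.snd hrxy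
      exact ⟨r.1, hr.1.1, r.2, hr.1.2, hr.2.1, hr.2.2, h1, h2⟩
    · rintro ⟨a, ha, b, hb, h1, h2, h3, h4⟩
      refine ⟨(a, b), ?_, Prod.ext h3 h4⟩
      rw [hT, Finset.mem_filter, Finset.mem_product]
      exact ⟨⟨ha, hb⟩, h1, h2⟩
  have hFsym : ∀ x y, (x, y) ∈ F → (y, x) ∈ F := by
    intro x y h
    rw [hmemF] at h ⊢
    obtain ⟨a, ha, b, hb, h1, h2, h3, h4⟩ := h
    refine ⟨b, hb, a, ha, ?_, ?_, h4, h3⟩
    · rw [← h1, hs1inv]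
    · rw [← h2, hs2inv]
  have hFY : ∀ x y, (x, y) ∈ F → y ∉ Y0 := by
    intro x y h hy
    rw [hmemF] at h
    obtain ⟨a, ha, b, hb, h1, h2, h3, h4⟩ := h
    have hbB : (b 0, b 1) ∈ B := by
      rw [hBdef]
      exact Finset.mem_image.mpr ⟨b, Finset.mem_filter.mpr ⟨hb, by rw [h4]; exact hy⟩, rfl⟩
    have hbI : b 0 ∈ I := by rw [hI]; exact Finset.mem_image.mpr ⟨_, hbB, rfl⟩
    have hbJ : b 1 ∈ J := by rw [hJ]; exact Finset.mem_image.mpr ⟨_, hbB, rfl⟩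
    refine hf5 (b 0) (b 1) hbB a ha ⟨?_, ?_⟩
    · have := hs1I t1 (b 0) hbI
      rw [← this, ← h1, hs1inv]
    · have := hs2J t2 (b 1) hbJ
      rw [← this, ← h2, hs2inv]
  obtain ⟨s3, hs3⟩ := hall_step F hFsym Y0 hFY (by
    have h1 : #F ≤ 52 * C ^ 2 * m ^ 2 := by
      rw [hF]
      exact Finset.card_image_le.trans hTc
    rw [hY0c, hV]
    refine lt_of_le_of_lt h1 ?_
    obtain ⟨k, hk⟩ := Nat.exists_eq_add_of_le (show 104 * C ^ 2 ≤ m ^ 2 by omega)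
    have h2 : m ^ 2 - 104 * C ^ 2 = k := by omega
    rw [h2]
    have h3 : m ^ 2 ≤ 2 * k := by omega
    have h4 : 0 < m ^ 2 := by positivity
    calc 52 * C ^ 2 * m ^ 2 ≤ 52 * C ^ 2 * (2 * k) := Nat.mul_le_mul_left _ h3
      _ = 104 * C ^ 2 * k := by ring
      _ < (104 * C ^ 2 + 1) * k := by
          have : 0 < k := by omega
          nlinarith)
  refine ⟨![s1 t1, s2 t2, s3], fun a ha hcon => ?_⟩
  refine hs3 (a 2) ?_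
  rw [hmemF]
  exact ⟨a, ha, _, hcon, rfl, rfl, rfl, rfl⟩

end Pool.Agent.V11199.SS
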