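import Pool.Agent.V11199.SS.Avg

/-! Placement of the rows and columns of a small bipartite graph. -/

namespace Pool.Agent.V11199.SS

open Finset

set_option linter.unusedSectionVars false

variable {V : Type} [Fintype V] [DecidableEq V]

/-- the light classes in direction `d` -/
def W (A : Finset (Fin 3 → V)) (Δ : ℕ) (d : Fin 3) : Finset V :=
  {i : V | #{a ∈ A | a d = i} ≤ Δ}

theorem mem_W {A : Finset (Fin 3 → V)} {Δ : ℕ} {d : Fin 3} {i : V} :
    i ∈ W A Δ d ↔ #{a ∈ A | a d = i} ≤ Δ := by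
  unfold W
  rw [Finset.mem_filter]
  simp

theorem light (A : Finset (Fin 3 → V)) (C m : ℕ) (hm : 0 < m) (hC : 0 < C)
    (hV : Fintype.card V = m ^ 2) (hA : #A ≤ C * m ^ 3) (d : Fin 3) :
    3 * m ^ 2 ≤ 4 * #(W A (4 * C * m) d) := by
  have h1 : #{i : V | ¬ #{a ∈ A | a d = i} ≤ 4 * C * m} * (4 * C * m + 1) ≤ #A := by
    calc #{i : V | ¬ #{a ∈ A | a d = i} ≤ 4 * C * m} * (4 * C * m + 1)
        = ∑ i ∈ ({i : V | ¬ #{a ∈ A | a d = i} ≤ 4 * C * m} : Finset V), (4 * C * m + 1) := by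
          rw [Finset.sum_const, smul_eq_mul]
      _ ≤ ∑ i ∈ ({i : V | ¬ #{a ∈ A | a d = i} ≤ 4 * C * m} : Finset V),
          #{a ∈ A | a d = i} := Finset.sum_le_sum (fun i hi => by
            have := (Finset.mem_filter.mp hi).2
            omega)
      _ ≤ ∑ i, #{a ∈ A | a d = i} := Finset.sum_le_sum_of_subset (Finset.subset_univ _)
      _ = #A := (Finset.card_eq_sum_card_fiberwise (fun a _ => Finset.mem_coe.mpr
            (Finset.mem_univ _))).symm
  have h2 : #(W A (4 * C * m) d) + #{i : V | ¬ #{a ∈ A | a d = i} ≤ 4 * C * m} = m ^ 2 := by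
    rw [← hV, ← Finset.card_univ]
    exact Finset.card_filter_add_card_filter_not _
  generalize #{i : V | ¬ #{a ∈ A | a d = i} ≤ 4 * C * m} = H at h1 h2
  have h3 : (C * m) * (4 * H) ≤ (C * m) * m ^ 2 := by
    calc (C * m) * (4 * H) ≤ H * (4 * C * m + 1) := by nlinarith
      _ ≤ C * m ^ 3 := h1.trans hA
      _ = (C * m) * m ^ 2 := by ring
  have h4 : 4 * H ≤ m ^ 2 := Nat.le_of_mul_le_mul_left h3 (by positivity)
  omega

/-- conflicts -/
def conf (A : Finset (Fin 3 → V)) (B : Finset (V × V)) : V ⊕ V → V ⊕ V → V → V → Prop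
  | Sum.inl _, Sum.inl _, p, q => p = q
  | Sum.inr _, Sum.inr _, p, q => p = q
  | Sum.inl i, Sum.inr j, p, q => (i, j) ∈ B ∧ ∃ a ∈ A, a 0 = p ∧ a 1 = q
  | Sum.inr j, Sum.inl i, p, q => (i, j) ∈ B ∧ ∃ a ∈ A, a 0 = q ∧ a 1 = p

theorem conf_symm (A : Finset (Fin 3 → V)) (B : Finset (V × V)) (x y : V ⊕ V) (p q : V)
    (h : conf A B x y p q) : conf A B y x q p := by
  rcases x with i | i <;> rcases y with j | j <;> simp only [conf] at h ⊢
  · exact h.symm
  · exact h
  · exact h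
  · exact h.symm

def EE (B : Finset (V × V)) : Finset ((V ⊕ V) × (V ⊕ V)) :=
  B.image (fun b => (Sum.inl b.1, Sum.inr b.2)) ∪ B.image (fun b => (Sum.inr b.2, Sum.inl b.1))

theorem card_EE (B : Finset (V × V)) : #(EE B) ≤ 2 * #B := by
  unfold EE
  refine (Finset.card_union_le _ _).trans ?_
  have h1 : #(B.image (fun b => ((Sum.inl b.1 : V ⊕ V), (Sum.inr b.2 : V ⊕ V)))) ≤ #B :=
    Finset.card_image_le
  have h2 : #(B.image (fun b => ((Sum.inr b.2 : V ⊕ V), (Sum.inl b.1 : V ⊕ V)))) ≤ #B :=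
    Finset.card_image_le
  omega

theorem conf_count (A : Finset (Fin 3 → V)) (B : Finset (V × V)) (Δ : ℕ) (x y : V ⊕ V) (q : V)
    (hq0 : ∀ i, y = Sum.inl i → q ∈ W A Δ 0) (hq1 : ∀ j, y = Sum.inr j → q ∈ W A Δ 1) :
    ∃ T : Finset V, (∀ p, conf A B x y p q → p ∈ T) ∧
      #T ≤ 1 + Δ * (if (x, y) ∈ EE B then 1 else 0) := by
  rcases x with i | i <;> rcases y with j | j
  · exact ⟨{q}, fun p hp => by simpa [conf] using hp, by simp⟩
  · by_cases h : (i, j) ∈ B
    · refine ⟨(A.filter (fun a => a 1 = q)).image (fun a => a 0), ?_, ?_⟩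
      · intro p hp
        simp only [conf] at hp
        obtain ⟨_, a, ha, h0, h1⟩ := hp
        exact Finset.mem_image.mpr ⟨a, Finset.mem_filter.mpr ⟨ha, h1⟩, h0⟩
      · have h1 : (Sum.inl i, Sum.inr j) ∈ EE B := by
          unfold EE
          exact Finset.mem_union_left _ (Finset.mem_image.mpr ⟨(i, j), h, rfl⟩)
        rw [if_pos h1]
        refine Finset.card_image_le.trans ?_
        have := mem_W.mp (hq1 j rfl)
        omega
    · refine ⟨∅, ?_, by simp⟩
      intro p hp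
      simp only [conf] at hp
      exact absurd hp.1 h
  · by_cases h : (j, i) ∈ B
    · refine ⟨(A.filter (fun a => a 0 = q)).image (fun a => a 1), ?_, ?_⟩
      · intro p hp
        simp only [conf] at hp
        obtain ⟨_, a, ha, h0, h1⟩ := hp
        exact Finset.mem_image.mpr ⟨a, Finset.mem_filter.mpr ⟨ha, h0⟩, h1⟩
      · have h1 : (Sum.inr i, Sum.inl j) ∈ EE B := by
          unfold EE
          exact Finset.mem_union_right _ (Finset.mem_image.mpr ⟨(j, i), h, rfl⟩)
        rw [if_pos h1]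
        refine Finset.card_image_le.trans ?_
        have := mem_W.mp (hq0 j rfl)
        omega
    · refine ⟨∅, ?_, by simp⟩
      intro p hp
      simp only [conf] at hp
      exact absurd hp.1 h
  · exact ⟨{q}, fun p hp => by simpa [conf] using hp, by simp⟩

theorem numeric1 (C m t : ℕ) (hm : 1000000 * C ^ 5 ≤ m)
    (ht : t ^ 2 ≤ 2 * (104 * C ^ 2 * (4 * C * m))) : 8 * (4 * C * m * t) ≤ m ^ 2 := by
  by_contra h
  push Not at h
  have h1 : (m ^ 2) ^ 2 < (8 * (4 * C * m * t)) ^ 2 := Nat.pow_lt_pow_left h (by norm_num)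
  have h2 : (8 * (4 * C * m * t)) ^ 2 ≤ 1024 * C ^ 2 * m ^ 2 * (2 * (104 * C ^ 2 * (4 * C * m))) := by
    calc (8 * (4 * C * m * t)) ^ 2 = 1024 * C ^ 2 * m ^ 2 * t ^ 2 := by ring
      _ ≤ _ := Nat.mul_le_mul_left _ ht
  have h3 : 1024 * C ^ 2 * m ^ 2 * (2 * (104 * C ^ 2 * (4 * C * m))) ≤ (m ^ 2) ^ 2 := by
    calc 1024 * C ^ 2 * m ^ 2 * (2 * (104 * C ^ 2 * (4 * C * m))) = (851968 * C ^ 5) * m ^ 3 := by ring
      _ ≤ m * m ^ 3 := Nat.mul_le_mul_right _ (by nlinarith)
      _ = _ := by ring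
  omega

theorem numeric2 (C m : ℕ) (hC : 0 < C) (hm : 1000000 * C ^ 5 ≤ m) :
    24 * (104 * C ^ 2 * (4 * C * m)) ≤ m ^ 2 := by
  have h : C ^ 3 ≤ C ^ 5 := Nat.pow_le_pow_right hC (by norm_num)
  calc 24 * (104 * C ^ 2 * (4 * C * m)) = (9984 * C ^ 3) * m := by ring
    _ ≤ m * m := Nat.mul_le_mul_right _ (by nlinarith)
    _ = _ := by ring

theorem exists_uv (A : Finset (Fin 3 → V)) (C m : ℕ) (hC : 0 < C) (hm : 1000000 * C ^ 5 ≤ m)
    (hV : Fintype.card V = m ^ 2) (hA : #A ≤ C * m ^ 3) (B : Finset (V × V))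
    (hB : #B ≤ 104 * C ^ 2 * (4 * C * m)) (I J : Finset V) (hI : I = B.image Prod.fst)
    (hJ : J = B.image Prod.snd) :
    ∃ f : V ⊕ V → V, Set.InjOn (fun i => f (Sum.inl i)) I ∧ Set.InjOn (fun j => f (Sum.inr j)) J ∧
      (∀ i ∈ I, f (Sum.inl i) ∉ I ∧ f (Sum.inl i) ∈ W A (4 * C * m) 0) ∧
      (∀ j ∈ J, f (Sum.inr j) ∉ J ∧ f (Sum.inr j) ∈ W A (4 * C * m) 1) ∧
      (∀ i j, (i, j) ∈ B → ∀ a ∈ A, ¬ (a 0 = f (Sum.inl i) ∧ a 1 = f (Sum.inr j))) ∧
      ∑ x ∈ I.disjSum J, ∑ y ∈ I.disjSum J, GG A x y (f x) (f y) ≤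
        (1 / ((m : ℝ) ^ 2 / 2)) ^ 2 * (2 * (#A : ℝ) ^ 2) := by
  classical
  have hmpos : 0 < m := lt_of_lt_of_le (by positivity) hm
  have hVne : Nonempty V := by
    rw [← Fintype.card_pos_iff, hV]; positivity
  have hIc : #I ≤ #B := by rw [hI]; exact Finset.card_image_le
  have hJc : #J ≤ #B := by rw [hJ]; exact Finset.card_image_le
  obtain ⟨Δ, hΔ⟩ : ∃ Δ, Δ = 4 * C * m := ⟨_, rfl⟩
  have hn2 := numeric2 C m hC hm
  have hW0 := light A C m hmpos hC hV hA 0
  have hW1 := light A C m hmpos hC hV hA 1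
  let Q : V ⊕ V → Finset V := Sum.elim (fun _ => W A (4 * C * m) 0 \ I) (fun _ => W A (4 * C * m) 1 \ J)
  have hQ : ∀ x, 3 * m ^ 2 ≤ 4 * (#(Q x) + 104 * C ^ 2 * (4 * C * m)) := by
    intro x
    rcases x with i | i
    · have : #(W A (4 * C * m) 0) ≤ #(W A (4 * C * m) 0 \ I) + #I := by
        have := Finset.le_card_sdiff I (W A (4 * C * m) 0)
        omega
      change 3 * m ^ 2 ≤ 4 * (#(W A (4 * C * m) 0 \ I) + 104 * C ^ 2 * (4 * C * m))
      omega
    · have : #(W A (4 * C * m) 1) ≤ #(W A (4 * C * m) 1 \ J) + #J := by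
        have := Finset.le_card_sdiff J (W A (4 * C * m) 1)
        omega
      change 3 * m ^ 2 ≤ 4 * (#(W A (4 * C * m) 1 \ J) + 104 * C ^ 2 * (4 * C * m))
      omega
  have hmR : (0 : ℝ) < (m : ℝ) := by exact_mod_cast hmpos
  have hc : (0 : ℝ) < (m : ℝ) ^ 2 / 2 := by positivity
  obtain ⟨f, hf1, hf2, hf3⟩ := place (conf A B) (conf_symm A B) Q ((m : ℝ) ^ 2 / 2) hc
    (I.disjSum J) (by
      intro S' hS' hne
      obtain ⟨x, hx, hdeg⟩ := degen (EE B) S' hne
      refine ⟨x, hx, fun f hf => ?_⟩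
      obtain ⟨t, ht⟩ : ∃ t, t = #{y ∈ S' | (x, y) ∈ EE B} := ⟨_, rfl⟩
      rw [← ht] at hdeg
      have ht2 : t ^ 2 ≤ 2 * (104 * C ^ 2 * (4 * C * m)) := by
        have := card_EE B
        omega
      have hn1 := numeric1 C m t hm ht2
      refine ⟨(Q x).filter (fun p => ∀ y ∈ S', y ≠ x → ¬ conf A B x y p (f y)),
        Finset.filter_subset _ _, ?_, ?_⟩
      · have hT : ∀ y : V ⊕ V, ∃ T : Finset V, (y ∈ S' → y ≠ x →
            (∀ p, conf A B x y p (f y) → p ∈ T) ∧
            #T ≤ 1 + 4 * C * m * (if (x, y) ∈ EE B then 1 else 0)) := by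
          intro y
          by_cases hy : y ∈ S' ∧ y ≠ x
          · obtain ⟨T, hT1, hT2⟩ := conf_count A B (4 * C * m) x y (f y)
              (by
                intro i hi
                have := hf y hy.1 hy.2
                rw [hi] at this
                change _ ∈ W A (4 * C * m) 0 \ I at this
                rw [hi]
                exact (Finset.mem_sdiff.mp this).1)
              (by
                intro i hi
                have := hf y hy.1 hy.2
                rw [hi] at this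
                change _ ∈ W A (4 * C * m) 1 \ J at this
                rw [hi]
                exact (Finset.mem_sdiff.mp this).1)
            exact ⟨T, fun _ _ => ⟨hT1, hT2⟩⟩
          · exact ⟨∅, fun h1 h2 => absurd ⟨h1, h2⟩ hy⟩
        choose T hT using hT
        have hsub : Q x ⊆ (Q x).filter (fun p => ∀ y ∈ S', y ≠ x → ¬ conf A B x y p (f y)) ∪
            (S'.erase x).biUnion T := by
          intro p hp
          by_cases h : ∀ y ∈ S', y ≠ x → ¬ conf A B x y p (f y)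
          · exact Finset.mem_union_left _ (Finset.mem_filter.mpr ⟨hp, h⟩)
          · push Not at h
            obtain ⟨y, hy, hyx, hcf⟩ := h
            exact Finset.mem_union_right _ (Finset.mem_biUnion.mpr
              ⟨y, Finset.mem_erase.mpr ⟨hyx, hy⟩, (hT y hy hyx).1 p hcf⟩)
        have hb : #((S'.erase x).biUnion T) ≤ #S' + 4 * C * m * t := by
          calc #((S'.erase x).biUnion T) ≤ ∑ y ∈ S'.erase x, #(T y) := Finset.card_biUnion_le
            _ ≤ ∑ y ∈ S'.erase x, (1 + 4 * C * m * (if (x, y) ∈ EE B then 1 else 0)) :=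
                Finset.sum_le_sum (fun y hy => (hT y (Finset.mem_of_mem_erase hy)
                  (Finset.ne_of_mem_erase hy)).2)
            _ ≤ ∑ y ∈ S', (1 + 4 * C * m * (if (x, y) ∈ EE B then 1 else 0)) :=
                Finset.sum_le_sum_of_subset (Finset.erase_subset _ _)
            _ = #S' + 4 * C * m * t := by
                rw [Finset.sum_add_distrib, ← Finset.mul_sum, ht, Finset.card_filter]
                simp
        have hc1 := (Finset.card_le_card hsub).trans (Finset.card_union_le _ _)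
        have hS'c : #S' ≤ 2 * (104 * C ^ 2 * (4 * C * m)) := by
          have h1 := Finset.card_le_card hS'
          rw [Finset.card_disjSum] at h1
          omega
        have hQx := hQ x
        have hfin : m ^ 2 ≤ 2 * #((Q x).filter (fun p => ∀ y ∈ S', y ≠ x →
          ¬ conf A B x y p (f y))) := by
          omega
        have hfin' : ((m : ℝ)) ^ 2 ≤ 2 * (#((Q x).filter (fun p => ∀ y ∈ S', y ≠ x →
          ¬ conf A B x y p (f y))) : ℝ) := by exact_mod_cast hfin
        linarith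
      · intro p hp y hy hyx
        exact (Finset.mem_filter.mp hp).2 y hy hyx) (GG A) (fun _ _ => 0)
      (fun x y p q => GG_nonneg A x y p q) (fun _ _ => le_refl _) (fun x p q => GG_diag A x p q)
  have hmemI : ∀ i ∈ I, (Sum.inl i : V ⊕ V) ∈ I.disjSum J := fun i hi => by simpa using hi
  have hmemJ : ∀ j ∈ J, (Sum.inr j : V ⊕ V) ∈ I.disjSum J := fun j hj => by simpa using hj
  refine ⟨f, ?_, ?_, ?_, ?_, ?_, ?_⟩
  · intro i hi i' hi' h
    by_contra hne
    exact hf2 _ (hmemI i hi) _ (hmemI i' hi') (fun h' => hne (Sum.inl_injective h')) h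
  · intro i hi i' hi' h
    by_contra hne
    exact hf2 _ (hmemJ i hi) _ (hmemJ i' hi') (fun h' => hne (Sum.inr_injective h')) h
  · intro i hi
    have h := hf1 _ (hmemI i hi)
    change _ ∈ W A (4 * C * m) 0 \ I at h
    rw [Finset.mem_sdiff] at h
    exact ⟨h.2, h.1⟩
  · intro i hi
    have h := hf1 _ (hmemJ i hi)
    change _ ∈ W A (4 * C * m) 1 \ J at h
    rw [Finset.mem_sdiff] at h
    exact ⟨h.2, h.1⟩
  · intro i j hij a ha hcon
    have hi : i ∈ I := by rw [hI]; exact Finset.mem_image.mpr ⟨(i, j), hij, rfl⟩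
    have hj : j ∈ J := by rw [hJ]; exact Finset.mem_image.mpr ⟨(i, j), hij, rfl⟩
    exact hf2 _ (hmemI i hi) _ (hmemJ j hj) (by simp) ⟨hij, a, ha, hcon⟩
  · simp only [Finset.sum_const_zero, mul_zero, zero_add] at hf3
    refine hf3.trans ?_
    exact mul_le_mul_of_nonneg_left (GG_total A I J) (by positivity)

end Pool.Agent.V11199.SS
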